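import Pool.Agent.K4W.StmtsU

set_option autoImplicit false

/-! Squad K4W, row UBB: decay of the autocorrelation. -/

namespace Pool.Agent.K4W.H89

open Pool.Agent.Helper69_Weyl (ee W)

theorem ubb (uga : UgaStmt) (usm : UsmStmt) : UbbStmt := by
  intro N t ξ h hN
  obtain ⟨hnorm, -, -⟩ := usm
  obtain ⟨hs, hle⟩ := uga N 1 ((h : ℝ) / 2) hN le_rfl
  have hN0 : (0 : ℝ) < N := by exact_mod_cast hN
  set E : ℝ := Real.exp (-(Real.pi * (h : ℝ) ^ 2 / (2 * (N : ℝ) ^ 2))) with hE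
  have hE0 : 0 < E := Real.exp_pos _
  -- the terms
  have hterm : ∀ y : ℤ, ‖f N t ξ y * (starRingEnd ℂ) (f N t ξ (y + h))‖ ≤
      E * ga N (((1 : ℕ) : ℝ) * (y : ℝ) + (h : ℝ) / 2) := by
    intro y
    have h1 : ‖f N t ξ y * (starRingEnd ℂ) (f N t ξ (y + h))‖ =
        ga N (y : ℝ) * ga N (((y + h : ℤ) : ℝ)) := by
      rw [norm_mul, RCLike.norm_conj, hnorm, hnorm]
    rw [h1, hE, ga, ga, ga, ← Real.exp_add, ← Real.exp_add]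
    apply Real.exp_le_exp.2
    have hN2 : (0 : ℝ) < (N : ℝ) ^ 2 := by positivity
    have hpi : 0 < Real.pi := Real.pi_pos
    have h2 : -(Real.pi * (h : ℝ) ^ 2 / (2 * (N : ℝ) ^ 2)) +
        -(Real.pi * (((1 : ℕ) : ℝ) * (y : ℝ) + (h : ℝ) / 2) ^ 2 / (N : ℝ) ^ 2) -
        (-(Real.pi * (y : ℝ) ^ 2 / (N : ℝ) ^ 2) +
          -(Real.pi * (((y + h : ℤ) : ℝ)) ^ 2 / (N : ℝ) ^ 2)) =
        Real.pi / (N : ℝ) ^ 2 * ((y : ℝ) + (h : ℝ) / 2) ^ 2 := by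
      push_cast
      field_simp
      ring
    have h3 : 0 ≤ Real.pi / (N : ℝ) ^ 2 * ((y : ℝ) + (h : ℝ) / 2) ^ 2 := by positivity
    linarith
  have hs' : Summable fun y : ℤ => E * ga N (((1 : ℕ) : ℝ) * (y : ℝ) + (h : ℝ) / 2) :=
    hs.mul_left E
  have h4 : ‖AA (f N t ξ) h‖ ≤ ∑' y : ℤ, E * ga N (((1 : ℕ) : ℝ) * (y : ℝ) + (h : ℝ) / 2) := by
    rw [AA]
    exact tsum_of_norm_bounded hs'.hasSum hterm
  rw [tsum_mul_left] at h4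
  calc ‖AA (f N t ξ) h‖ ≤ E * ∑' y : ℤ, ga N (((1 : ℕ) : ℝ) * (y : ℝ) + (h : ℝ) / 2) := h4
    _ ≤ E * (200 * (N : ℝ)) := mul_le_mul_of_nonneg_left hle hE0.le
    _ = 200 * (N : ℝ) * E := by ring

end Pool.Agent.K4W.H89
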